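import Pool.Agent.Lib.MP_d118f9_ag.D.DPt
import Pool.Agent.Lib.MP_9a7843_ag_D.Krull

/-!
# MP_d118f9_ag, block D: points above a point
-/

set_option autoImplicit false

noncomputable section

namespace Pool.Agent.MPd118f9

variable {k F K : Type} [Field k] [Field F] [CharZero F] [Field K] [Algebra k F] [Algebra k K]
  [Algebra F K] [IsScalarTower k F K] [FiniteDimensional F K]

/-- The ring of the elements of `K` integral over `O` satisfies the hypotheses of
`exists_dvr_not_mem`. -/
private theorem above_aux (Q : Pt k F) :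
    ∃ R : Subalgebra k K, IsNoetherianRing R ∧ IsIntegrallyClosed R ∧
      (∀ x : K, ∃ r ∈ R, ∃ s ∈ R, s ≠ 0 ∧ x = r / s) ∧ (∀ f ∈ Q.1, algebraMap F K f ∈ R) ∧
      ∀ f : F, algebraMap F K f ∈ R → f ∈ Q.1 := by
  let O := Q.1
  let iO : Algebra O K := ((algebraMap F K).comp (algebraMap O F)).toAlgebra
  have hO : ∀ x : O, algebraMap O K x = algebraMap F K (x : F) := fun _ => rfl
  have hst : IsScalarTower O F K := IsScalarTower.of_algebraMap_eq fun _ => rfl
  have hdvr : IsDiscreteValuationRing O := Q.2.2
  have hsep : Algebra.IsSeparable F K := inferInstance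
  have hnoeth : IsNoetherianRing (integralClosure O K) :=
    IsIntegralClosure.isNoetherianRing O F K (integralClosure O K)
  have hcl : IsIntegrallyClosed (integralClosure O K) :=
    integralClosure.isIntegrallyClosedOfFiniteExtension F
  let R : Subalgebra k K :=
    { (integralClosure O K).toSubsemiring with
      algebraMap_mem' := fun c => by
        have h1 : algebraMap k F c ∈ O := Q.2.1 c
        have h2 : algebraMap k K c = algebraMap O K ⟨algebraMap k F c, h1⟩ := by
          rw [hO, IsScalarTower.algebraMap_apply k F K]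
        rw [h2]
        exact (integralClosure O K).algebraMap_mem _ }
  have hR : ∀ x : K, x ∈ R ↔ IsIntegral O x := fun x => Iff.rfl
  let e : integralClosure O K ≃+* R :=
    { toFun := fun x => ⟨x.1, x.2⟩
      invFun := fun x => ⟨x.1, x.2⟩
      left_inv := fun _ => rfl
      right_inv := fun _ => rfl
      map_mul' := fun _ _ => rfl
      map_add' := fun _ _ => rfl }
  have halg : Algebra.IsAlgebraic O K := by
    rw [IsFractionRing.comap_isAlgebraic_iff (A := O) (K := F) (C := K)]
    infer_instance
  have hinjO : Function.Injective (algebraMap O K) := by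
    rw [IsScalarTower.algebraMap_eq O F K]
    exact (algebraMap F K).injective.comp (IsFractionRing.injective O F)
  refine ⟨R, isNoetherianRing_of_ringEquiv _ e, IsIntegrallyClosed.of_equiv e, fun x => ?_,
    fun f hf => ?_, fun f hf => ?_⟩
  · obtain ⟨y, hy, hyx⟩ := (Algebra.IsAlgebraic.isAlgebraic (R := O) x).exists_integral_multiple
    have hy0 : algebraMap O K y ≠ 0 := (map_ne_zero_iff _ hinjO).2 hy
    refine ⟨y • x, hyx, algebraMap O K y, (hR _).2 isIntegral_algebraMap, hy0, ?_⟩
    rw [Algebra.smul_def, mul_div_cancel_left₀ _ hy0]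
  · rw [hR]
    exact isIntegral_algebraMap (x := (⟨f, hf⟩ : O))
  · rw [hR, isIntegral_algebraMap_iff (algebraMap F K).injective] at hf
    obtain ⟨y, hy⟩ := IsIntegrallyClosed.isIntegral_iff.1 hf
    rw [← hy]
    exact y.2

/-- Every point of `F` is below a point of `K`.

Proof. Let `O` be the valuation ring of `Q` (a discrete valuation ring with quotient field `F`) and
`R` its integral closure in `K`, as a subalgebra over `k`. It is noetherian
(`IsIntegralClosure.isNoetherianRing`, `K / F` is finite and separable) and integrally closed, and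
its quotient field is `K` (every `x : K` is `r / s` with `s ∈ O`:
`IsIntegralClosure.exists_smul_eq_mul`, `exists_integral_multiple` or similar). Let `ϖ` be a
uniformizer of `Q`; `ϖ⁻¹` is not integral over `O` (`O` is integrally closed), so it is not in `R`.
`MP9a7843.exists_dvr_not_mem` gives a point `P` of `K` with `R ⊆ P`, in particular `O ⊆ P`;
`Pt.below_eq`. -/
theorem exists_above (Q : Pt k F) : ∃ P : Pt k K, P.below = Q := by
  obtain ⟨R, h1, h2, h3, h4, h5⟩ := above_aux (K := K) Q
  obtain ⟨ϖ, hϖ⟩ := Q.exists_unif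
  have hϖ0 : ϖ ≠ 0 := by
    rintro rfl
    have h6 : Q.ord (0 : F) = 0 := MP9a7843.ord_zero
    omega
  have hnot : algebraMap F K ϖ⁻¹ ∉ R := by
    intro h6
    have h7 := (Q.2.ord_nonneg_iff (inv_ne_zero hϖ0)).2 (h5 _ h6)
    have h8 := Q.ord_inv ϖ
    have h9 : 0 ≤ Q.ord ϖ⁻¹ := h7
    omega
  obtain ⟨A, hA, hRA, -, -⟩ := MP9a7843.exists_dvr_not_mem R h3 hnot
  refine ⟨⟨A, hA⟩, Pt.below_eq fun f hf hQf => ?_⟩
  have hf' : algebraMap F K f ≠ 0 := (map_ne_zero_iff _ (algebraMap F K).injective).2 hf
  exact (hA.ord_nonneg_iff hf').2 (hRA _ (h4 f ((Q.2.ord_nonneg_iff hf).1 hQf)))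

end Pool.Agent.MPd118f9
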