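import Pool.Agent.Lib.MP_d118f9_ag.Iface1

/-!
# MP_d118f9_ag, block D: divisors with two sections, gonality
-/

set_option autoImplicit false

noncomputable section

namespace Pool.Agent.MPd118f9

variable {k K : Type} [Field k] [IsAlgClosed k] [CharZero k] [Field K] [Algebra k K]

/-- Proof. The set in the definition of `gon` is not empty (`IsCurve.riemann` for multiples of a
point, `IsCurve.infinite_pt`), `Nat.sInf_mem`. -/
theorem exists_gon (hK : IsCurve k K) :
    ∃ D : Dv k K, 0 ≤ D ∧ 2 ≤ ell D ∧ deg D = gon k K := by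
  have hne : {n : ℕ | ∃ D : Dv k K, 0 ≤ D ∧ 2 ≤ ell D ∧ (n : ℤ) = deg D}.Nonempty := by
    obtain ⟨c₀, hc⟩ := hK.riemann
    have := hK.infinite_pt
    obtain ⟨P⟩ : Nonempty (Pt k K) := inferInstance
    obtain ⟨n, hn1, hn2⟩ : ∃ n : ℕ, c₀ ≤ (n : ℤ) ∧ genus k K + 1 ≤ n :=
      ⟨max c₀.toNat (genus k K + 1),
        (Int.self_le_toNat c₀).trans (by exact_mod_cast le_max_left _ _), le_max_right _ _⟩
    refine ⟨n, Finsupp.single P (n : ℤ), Finsupp.single_nonneg.2 (Int.natCast_nonneg n), ?_,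
      (deg_single P n).symm⟩
    have h1 := hc (Finsupp.single P (n : ℤ)) (by rw [deg_single]; exact hn1)
    rw [deg_single] at h1
    omega
  obtain ⟨D, h1, h2, h3⟩ := Nat.sInf_mem hne
  exact ⟨D, h1, h2, h3.symm⟩

omit [IsAlgClosed k] [CharZero k] in
private theorem DCliff_point {D : Dv k K} (hD : 0 ≤ D) (h0 : D ≠ 0) :
    ∃ P, Finsupp.single P 1 ≤ D := by
  classical
  obtain ⟨P, hP⟩ : ∃ P, D P ≠ 0 := by
    by_contra hcon
    push Not at hcon
    exact h0 (Finsupp.ext hcon)
  refine ⟨P, fun Q => ?_⟩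
  have hQ : 0 ≤ D Q := hD Q
  have hP0 : 0 ≤ D P := hD P
  rw [Finsupp.single_apply]
  split_ifs with h
  · rw [← h]
    omega
  · exact hQ

private theorem DCliff_aux (hK : IsCurve k K) (n : ℕ) : ∀ D : Dv k K, 0 ≤ D → 2 ≤ ell D →
    deg D ≤ n → ∃ D' : Dv k K, 0 ≤ D' ∧ D' ≤ D ∧ ell D' = 2 := by
  induction n with
  | zero =>
    intro D hD h hn
    by_cases h2 : ell D = 2
    · exact ⟨D, hD, le_rfl, h2⟩
    · have h0 : D ≠ 0 := by
        rintro rfl
        rw [hK.ell_zero] at h
        omega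
      obtain ⟨P, hP⟩ := DCliff_point hD h0
      have h3 := deg_mono hP
      rw [deg_single] at h3
      push_cast at hn
      omega
  | succ n ih =>
    intro D hD h hn
    by_cases h2 : ell D = 2
    · exact ⟨D, hD, le_rfl, h2⟩
    · have h0 : D ≠ 0 := by
        rintro rfl
        rw [hK.ell_zero] at h
        omega
      obtain ⟨P, hP⟩ := DCliff_point hD h0
      have h3 := hK.ell_add_single_le (D - Finsupp.single P 1) P
      rw [sub_add_cancel] at h3
      obtain ⟨D', e1, e2, e3⟩ := ih (D - Finsupp.single P 1) (sub_nonneg.2 hP) (by omega)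
        (by rw [deg_sub, deg_single]; push_cast at hn; omega)
      refine ⟨D', e1, e2.trans ?_, e3⟩
      exact sub_le_self D (Finsupp.single_nonneg.2 zero_le_one)

/-- Proof. Remove the points of `D` one by one: `ell` drops by at most one at each step
(`IsCurve.ell_add_single_le`) and `ell 0 = 1`. Induction on `deg D` (strong induction on the
natural number `(deg D).toNat`): if `ell D = 2` take `D`; otherwise `ell D ≥ 3`, so `D ≠ 0`, there
is a point `P` with `1 ≤ D P`, and `D - P` is effective with `ell (D - P) ≥ 2`. -/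
theorem exists_ell_two (hK : IsCurve k K) {D : Dv k K} (hD : 0 ≤ D) (h : 2 ≤ ell D) :
    ∃ D' : Dv k K, 0 ≤ D' ∧ D' ≤ D ∧ ell D' = 2 :=
  DCliff_aux hK (deg D).toNat D hD h (Int.self_le_toNat _)

omit [CharZero k] in
private theorem DCliff_indep {x : K} (hxk : ∀ c : k, x ≠ algebraMap k K c) :
    LinearIndependent k fun i : ℕ => x ^ i := by
  have ht : Transcendental k x := by
    intro ha
    have h1 := IsAlgClosed.degree_eq_one_of_irreducible k (minpoly.irreducible ha.isIntegral)
    obtain ⟨c, hc⟩ := minpoly.mem_range_of_degree_eq_one k x h1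
    exact hxk c hc.symm
  have h2 := (Polynomial.basisMonomials k).linearIndependent.map'
    (Polynomial.aeval x : Polynomial k →ₐ[k] K).toLinearMap
    (LinearMap.ker_eq_bot.2 (transcendental_iff_injective.1 ht))
  have h3 : ((Polynomial.aeval x : Polynomial k →ₐ[k] K).toLinearMap ∘
      (Polynomial.basisMonomials k : ℕ → Polynomial k)) = fun i : ℕ => x ^ i := by
    funext i
    simp
  rwa [h3] at h2

/-- Proof. If `x` is in `L(D)`, not constant, `D` effective, then `1, x, …, x^n` are in `L(n D)`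
(`mul_mem_L`, `one_mem_L`) and linearly independent over `k` (`x` is not algebraic over the
algebraically closed field `k`). -/
theorem le_ell_nsmul (hK : IsCurve k K) {D : Dv k K} (hD : 0 ≤ D) {x : K} (hx : x ∈ L D)
    (hxk : ∀ c : k, x ≠ algebraMap k K c) (n : ℕ) : n + 1 ≤ ell (n • D) := by
  have hpow : ∀ i : ℕ, x ^ i ∈ L (i • D) := by
    intro i
    induction i with
    | zero =>
      rw [pow_zero, zero_nsmul]
      exact one_mem_L le_rfl
    | succ i ih =>
      rw [pow_succ, succ_nsmul]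
      exact mul_mem_L ih hx
  have hmem : ∀ i : Fin (n + 1), x ^ (i : ℕ) ∈ L (n • D) := fun i =>
    L_mono (nsmul_le_nsmul_left hD (Nat.lt_succ_iff.1 i.2)) (hpow i)
  have h1 : LinearIndependent k fun i : Fin (n + 1) => x ^ (i : ℕ) :=
    (DCliff_indep hxk).comp (fun i : Fin (n + 1) => (i : ℕ)) Fin.val_injective
  have h2 : LinearIndependent k fun i : Fin (n + 1) => (⟨x ^ (i : ℕ), hmem i⟩ : L (n • D)) :=
    LinearIndependent.of_comp (L (n • D)).subtype h1
  have := hK.finDim (n • D)
  have h3 := h2.fintype_card_le_finrank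
  rwa [Fintype.card_fin] at h3

/-- Proof. If `deg D ≤ 0` then `D = 0` and `ell D = 1`. If `deg D = 1`: there is a nonconstant `x`
in `L(D)` (`IsCurve.mem_L_zero`, the constants have dimension one), `le_ell_nsmul` gives
`n + 1 ≤ ell (n • D)`, and by `IsCurve.riemann` `ell (n • D) = n + 1 - genus` for large `n`, a
contradiction to `1 ≤ genus`. -/
theorem two_le_deg (hK : IsCurve k K) (hg : 1 ≤ genus k K) {D : Dv k K} (hD : 0 ≤ D)
    (h : ell D = 2) : 2 ≤ deg D := by
  by_contra hcon
  push Not at hcon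
  obtain ⟨x, hx, hxk⟩ : ∃ x ∈ L D, ∀ c : k, x ≠ algebraMap k K c := by
    by_contra hno
    push Not at hno
    have h1 : L D ≤ L (0 : Dv k K) := fun x hx => hK.mem_L_zero.2 (hno x hx)
    have := hK.finDim (0 : Dv k K)
    have h2 : ell D ≤ ell (0 : Dv k K) := Submodule.finrank_mono h1
    rw [hK.ell_zero] at h2
    omega
  obtain ⟨c₀, hc⟩ := hK.riemann
  have := hK.infinite_pt
  obtain ⟨P⟩ : Nonempty (Pt k K) := inferInstance
  have hle : D ≤ D + Finsupp.single P (1 - deg D) :=
    le_add_of_nonneg_right (Finsupp.single_nonneg.2 (by omega))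
  have hdeg : deg (D + Finsupp.single P (1 - deg D)) = 1 := by
    rw [deg_add, deg_single]
    omega
  have h1 := le_ell_nsmul hK (hD.trans hle) (L_mono hle hx) hxk c₀.toNat
  have h2 := hc (c₀.toNat • (D + Finsupp.single P (1 - deg D))) (by
    rw [deg_nsmul, hdeg, mul_one]
    exact Int.self_le_toNat _)
  rw [deg_nsmul, hdeg, mul_one] at h2
  omega

/-- Proof. `D'` of `exists_ell_two`: the value `deg D' - 2 (ell D' - 1) = deg D' - 2` is `≥ 0` by
`two_le_deg`, and `ell (W - D') ≥ ell (W - D) ≥ 2` (`L_mono`, `IsCurve.finDim`), so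
`cliff W ≤ deg D' - 2 ≤ deg D - 2` (`Nat.sInf_le`). -/
theorem cliff_le (hK : IsCurve k K) (hg : 1 ≤ genus k K) {W D : Dv k K} (hD : 0 ≤ D)
    (h : 2 ≤ ell D) (h' : 2 ≤ ell (W - D)) : (cliff W : ℤ) + 2 ≤ deg D := by
  obtain ⟨D', h0, hle, h2⟩ := exists_ell_two hK hD h
  have h3 := two_le_deg hK hg h0 h2
  have h4 := deg_mono hle
  have := hK.finDim (W - D')
  have h5 : ell (W - D) ≤ ell (W - D') :=
    Submodule.finrank_mono (L_mono (sub_le_sub_left hle W))
  have h6 : cliff W ≤ (deg D' - 2).toNat := by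
    refine Nat.sInf_le ⟨D', h2.ge, h'.trans h5, ?_⟩
    rw [h2, Int.toNat_of_nonneg (by omega)]
    norm_num
  omega

end Pool.Agent.MPd118f9
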