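import Pool.Agent.Lib.MP_d118f9_ag.Defs

/-!
# MP_d118f9_ag, block D: finite extensions of function fields
-/

set_option autoImplicit false

noncomputable section

namespace Pool.Agent.MPd118f9

/-- Proof. The image `z'` of the transcendental element `z : F` is transcendental over `k`
(`transcendental_algebraMap_iff`), `F` is finite over `k(z)` and `K` is finite over `F`; the image
of `k(z)` in `K` is `k(z')` (`IntermediateField.adjoin_map` for `IsScalarTower.toAlgHom k F K`, or
write generators explicitly). -/
theorem IsCurve.of_finite {k F K : Type} [Field k] [Field F] [Field K] [Algebra k F] [Algebra k K]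
    [Algebra F K] [IsScalarTower k F K] [FiniteDimensional F K] (hF : IsCurve k F) :
    IsCurve k K := by
  obtain ⟨z, hz, hfin⟩ := hF
  refine ⟨algebraMap F K z, (transcendental_algebraMap_iff (algebraMap F K).injective).2 hz, ?_⟩
  have h1 : (IntermediateField.adjoin k {z}).map (IsScalarTower.toAlgHom k F K) =
      IntermediateField.adjoin k {algebraMap F K z} := by
    rw [IntermediateField.adjoin_map, Set.image_singleton]
    rfl
  rw [← h1]
  generalize IntermediateField.adjoin k {z} = E at hfin
  have h2 : FiniteDimensional E K := FiniteDimensional.trans E F K
  refine Module.Finite.of_equiv_equiv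
    (IntermediateField.equivMap E (IsScalarTower.toAlgHom k F K)).toRingEquiv
    (RingEquiv.refl K) ?_
  ext x
  rfl

end Pool.Agent.MPd118f9
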