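import Mathlib

/-!
# MP_d118f9_ag, block D: quadratic extensions
-/

set_option autoImplicit false

noncomputable section

namespace Pool.Agent.MPd118f9

/-- A quadratic extension in characteristic zero is `F ⊕ F y` with `y ^ 2 = s ∈ F`, and there is the
conjugation `y ↦ -y`.

Proof. `K / F` is Galois (`Algebra.IsQuadraticExtension`) with a group of order two; let `σ ≠ 1`,
`σ ^ 2 = 1`. For `x` with `σ x ≠ x` let `y = x - σ x ≠ 0`, `σ y = -y`; `y ^ 2` is fixed by `σ`, so
it is in `F` (`IsGalois.mem_bot_iff_fixed` or similar), and `y` is not in `F` as `y ≠ -y`.  `1, y`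
are linearly independent over `F`, so they span `K`. -/
theorem exists_quad {F K : Type} [Field F] [CharZero F] [Field K] [Algebra F K]
    (h : Module.finrank F K = 2) :
    ∃ (y : K) (s : F) (σ : K ≃ₐ[F] K), y ^ 2 = algebraMap F K s ∧
      (∀ f : F, y ≠ algebraMap F K f) ∧
      (∀ x : K, ∃ f g : F, x = algebraMap F K f + algebraMap F K g * y) ∧ σ y = -y := by
  have hc : CharZero K := charZero_of_injective_algebraMap (algebraMap F K).injective
  have hq : Algebra.IsQuadraticExtension F K := { finrank_eq_two' := h }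
  have hfin : FiniteDimensional F K := Module.finite_of_finrank_pos (by omega)
  have hgal : IsGalois F K := inferInstance
  have hcard := IsGalois.card_aut_eq_finrank F K
  rw [h] at hcard
  obtain ⟨σ, hσ1, hσu⟩ := (Nat.card_eq_two_iff' (1 : K ≃ₐ[F] K)).1 hcard
  have hσ2 : ∀ x, σ (σ x) = x := by
    have h1 : σ * σ = 1 := by
      by_contra h2
      have h3 := hσu _ h2
      exact hσ1 (mul_left_cancel (h3.trans (mul_one σ).symm))
    intro x
    exact DFunLike.congr_fun h1 x
  have hfix : ∀ x : K, σ x = x → ∃ f : F, x = algebraMap F K f := by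
    intro x hx
    have h1 : x ∈ (⊥ : IntermediateField F K) := by
      rw [IsGalois.mem_bot_iff_fixed]
      intro τ
      by_cases hτ : τ = 1
      · rw [hτ]
        rfl
      · rw [hσu τ hτ]
        exact hx
    obtain ⟨f, hf⟩ := IntermediateField.mem_bot.1 h1
    exact ⟨f, hf.symm⟩
  obtain ⟨x, hx⟩ : ∃ x, σ x ≠ x := by
    by_contra h1
    push Not at h1
    exact hσ1 (AlgEquiv.ext h1)
  have hy0 : x - σ x ≠ 0 := fun h1 => hx (sub_eq_zero.1 h1).symm
  have hσy : σ (x - σ x) = -(x - σ x) := by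
    rw [map_sub, hσ2, neg_sub]
  generalize x - σ x = y at hy0 hσy
  obtain ⟨s, hs⟩ := hfix (y ^ 2) (by rw [map_pow, hσy, neg_sq])
  refine ⟨y, s, σ, hs, ?_, ?_, hσy⟩
  · intro f hf
    have h1 : σ y = y := by rw [hf]; exact σ.commutes f
    rw [h1] at hσy
    exact hy0 (self_eq_neg.1 hσy)
  · intro z
    have h2 : (2 : K) ≠ 0 := two_ne_zero
    obtain ⟨f, hf⟩ := hfix ((z + σ z) / 2) (by
      rw [map_div₀, map_add, hσ2, map_ofNat, add_comm])
    obtain ⟨g, hg⟩ := hfix ((z - σ z) / (2 * y)) (by
      rw [map_div₀, map_sub, hσ2, map_mul, map_ofNat, hσy, mul_neg, div_neg, ← neg_div, neg_sub])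
    refine ⟨f, g, ?_⟩
    rw [← hf, ← hg]
    field_simp
    ring

end Pool.Agent.MPd118f9
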