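import Pool.Agent.Lib.MP_d118f9_ag.D.DMem
import Pool.Agent.Lib.MP_d118f9_ag.D.DQuad

/-!
# MP_d118f9_ag, block D: the degree of a pull back and the genus
-/

set_option autoImplicit false

noncomputable section

open Classical

namespace Pool.Agent.MPd118f9

variable {k F K : Type} [Field k] [IsAlgClosed k] [CharZero k] [Field F] [Field K] [Algebra k F]
  [Algebra k K] [Algebra F K] [IsScalarTower k F K] [FiniteDimensional F K]

/-- Proof. `L (pull K D)` is isomorphic to `L D × L (D - Lam k s)` by `(f, g) ↦ f + g y`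
(`mem_pull_iff`; injective because `y` is not in `F`). -/
theorem ell_pull (hF : IsCurve k F) (hK : IsCurve k K) {y : K} {s : F} (hs : s ≠ 0)
    (hy : y ^ 2 = algebraMap F K s) (hyF : ∀ f : F, y ≠ algebraMap F K f)
    (hsp : ∀ x : K, ∃ f g : F, x = algebraMap F K f + algebraMap F K g * y)
    {σ : K ≃ₐ[F] K} (hσ : σ y = -y) (D : Dv k F) :
    ell (pull K D) = ell D + ell (D - Lam k s) := by
  let φ : (L D × L (D - Lam k s)) →ₗ[k] L (pull K D) :=
    { toFun := fun p => ⟨algebraMap F K p.1 + algebraMap F K p.2 * y,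
        (mem_pull_iff hF hK hs hy hσ).2 ⟨p.1.2, p.2.2⟩⟩
      map_add' := by
        intro p q
        apply Subtype.ext
        simp only [Prod.fst_add, Prod.snd_add, Submodule.coe_add, map_add]
        ring
      map_smul' := by
        intro c p
        apply Subtype.ext
        simp only [Prod.smul_fst, Prod.smul_snd, Submodule.coe_smul, RingHom.id_apply,
          Algebra.smul_def, map_mul, ← IsScalarTower.algebraMap_apply k F K]
        ring }
  have hφ : ∀ p, ((φ p : L (pull K D)) : K) = algebraMap F K p.1 + algebraMap F K p.2 * y :=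
    fun _ => rfl
  have hinj : Function.Injective φ := by
    rw [injective_iff_map_eq_zero]
    rintro ⟨⟨f, hf⟩, ⟨g, hg⟩⟩ h
    have h1 : algebraMap F K f + algebraMap F K g * y = 0 := by
      have h2 := congrArg (fun x : L (pull K D) => (x : K)) h
      exact h2
    have hg0 : g = 0 := by
      by_contra hg0
      have hg1 : algebraMap F K g ≠ 0 := (map_ne_zero_iff _ (algebraMap F K).injective).2 hg0
      apply hyF (-f / g)
      rw [map_div₀, map_neg, eq_div_iff hg1]
      linear_combination h1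
    have hf0 : f = 0 := by
      rw [hg0, map_zero, zero_mul, add_zero] at h1
      exact (map_eq_zero_iff _ (algebraMap F K).injective).1 h1
    subst hg0 hf0
    rfl
  have hsurj : Function.Surjective φ := by
    rintro ⟨x, hx⟩
    obtain ⟨f, g, rfl⟩ := hsp x
    obtain ⟨hf, hg⟩ := (mem_pull_iff hF hK hs hy hσ).1 hx
    exact ⟨(⟨f, hf⟩, ⟨g, hg⟩), rfl⟩
  have h1 := (LinearEquiv.ofBijective φ ⟨hinj, hsurj⟩).finrank_eq
  have h2 := hF.finDim D
  have h3 := hF.finDim (D - Lam k s)
  rw [Module.finrank_prod] at h1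
  exact h1.symm

/-- Proof. Let `d = deg (pull K (single Q 1)) ≥ 1` and `D = n • single Q 1`. For all large `n` the
theorem of Riemann for `pull K D`, `D`, `D - Lam k s` and `ell_pull` give
`n d + 1 - g_K = (n + 1 - g_F) + (n - deg (Lam k s) + 1 - g_F)`. Comparing `n` and `n + 1`:
`d = 2` and the second formula. (A point `Q` exists by `IsCurve.infinite_pt`.) -/
theorem deg_pull_single (hF : IsCurve k F) (hK : IsCurve k K) {y : K} {s : F} (hs : s ≠ 0)
    (hy : y ^ 2 = algebraMap F K s) (hyF : ∀ f : F, y ≠ algebraMap F K f)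
    (hsp : ∀ x : K, ∃ f g : F, x = algebraMap F K f + algebraMap F K g * y)
    {σ : K ≃ₐ[F] K} (hσ : σ y = -y) (Q : Pt k F) :
    deg (pull K (Finsupp.single Q 1)) = 2 ∧
      (genus k K : ℤ) = 2 * genus k F - 1 + deg (Lam k s) := by
  obtain ⟨c₀, h0⟩ := hF.riemann
  obtain ⟨c₁, h1⟩ := hK.riemann
  have hd := deg_pull_single_pos hK Q
  set d := deg (pull K (Finsupp.single Q 1)) with hd'
  have key : ∀ n : ℕ, c₀ ≤ n → c₀ + deg (Lam k s) ≤ n → c₁ ≤ n →
      (n : ℤ) * d + 1 - genus k K = 2 * n + 2 - 2 * genus k F - deg (Lam k s) := by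
    intro n hn1 hn2 hn3
    have e0 : deg (n • (Finsupp.single Q 1 : Dv k F)) = n := by
      rw [deg_nsmul, deg_single, mul_one]
    have e1 := h0 (n • (Finsupp.single Q 1 : Dv k F)) (by rw [e0]; exact hn1)
    have e2 := h0 (n • (Finsupp.single Q 1 : Dv k F) - Lam k s) (by rw [deg_sub, e0]; linarith)
    have e3 : deg (pull K (n • (Finsupp.single Q 1 : Dv k F))) = n * d := by
      rw [pull_nsmul hK, deg_nsmul]
    have e4 := h1 (pull K (n • (Finsupp.single Q 1 : Dv k F))) (by
      rw [e3]
      have : (n : ℤ) * 1 ≤ n * d := mul_le_mul_of_nonneg_left (by omega) (Int.natCast_nonneg n)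
      omega)
    have e5 := ell_pull hF hK hs hy hyF hsp hσ (n • (Finsupp.single Q 1 : Dv k F))
    have e6 : (ell (pull K (n • (Finsupp.single Q 1 : Dv k F))) : ℤ) =
        ell (n • (Finsupp.single Q 1 : Dv k F)) +
          ell (n • (Finsupp.single Q 1 : Dv k F) - Lam k s) := by
      exact_mod_cast e5
    rw [e1, e2, e4, e3, deg_sub, e0] at e6
    linarith
  set n : ℕ := (|c₀| + |c₁| + |deg (Lam k s)|).toNat with hn
  have a1 := le_abs_self c₀
  have a2 := le_abs_self c₁
  have a3 := le_abs_self (deg (Lam k s))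
  have b1 := abs_nonneg c₀
  have b2 := abs_nonneg c₁
  have b3 := abs_nonneg (deg (Lam k s))
  have hn' : (n : ℤ) = |c₀| + |c₁| + |deg (Lam k s)| := Int.toNat_of_nonneg (by omega)
  have k1 := key n (by omega) (by omega) (by omega)
  have k2 := key (n + 1) (by push_cast; omega) (by push_cast; omega) (by push_cast; omega)
  push_cast at k2
  have hd2 : d = 2 := by linarith
  refine ⟨hd2, ?_⟩
  rw [hd2] at k1
  linarith

/-- Proof. Both sides are additive in `D` (`pull_add`), and `deg_pull_single`
(`Finsupp.induction_linear` and `single Q n` by induction or through `pull_nsmul`). -/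
theorem deg_pull (hF : IsCurve k F) (hK : IsCurve k K) {y : K} {s : F} (hs : s ≠ 0)
    (hy : y ^ 2 = algebraMap F K s) (hyF : ∀ f : F, y ≠ algebraMap F K f)
    (hsp : ∀ x : K, ∃ f g : F, x = algebraMap F K f + algebraMap F K g * y)
    {σ : K ≃ₐ[F] K} (hσ : σ y = -y) (D : Dv k F) : deg (pull K D) = 2 * deg D := by
  let φ : Dv k F →+ ℤ := AddMonoidHom.mk' (fun D => deg (pull K D) - 2 * deg D) (by
    intro D D'
    rw [pull_add hK, deg_add, deg_add]
    ring)
  have hφ : ∀ D, φ D = deg (pull K D) - 2 * deg D := fun _ => rfl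
  have h1 : φ = 0 := by
    refine Finsupp.addHom_ext fun Q n => ?_
    have e1 : (Finsupp.single Q n : Dv k F) = n • Finsupp.single Q 1 := by
      rw [Finsupp.smul_single, smul_eq_mul, mul_one]
    rw [e1, map_zsmul, hφ, (deg_pull_single hF hK hs hy hyF hsp hσ Q).1, deg_single]
    simp
  have h2 := hφ D
  rw [h1] at h2
  have h3 : (0 : Dv k F →+ ℤ) D = 0 := rfl
  rw [h3] at h2
  linarith

end Pool.Agent.MPd118f9
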