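import Pool.Agent.Lib.MP_d118f9_ag.D.DDeg
import Pool.Agent.Lib.MP_d118f9_ag.D.DCurve
import Pool.Agent.Lib.MP_d118f9_ag.D.DCliff
import Pool.Agent.Lib.MP_d118f9_ag.K.KCoord

/-!
# MP_d118f9_ag, block D: the structure of a double cover
-/

set_option autoImplicit false

noncomputable section

open Classical

namespace Pool.Agent.MPd118f9

variable {k F : Type} [Field k] [IsAlgClosed k] [CharZero k] [Field F] [Algebra k F]

/-- Proof. `exists_quad` (`s ≠ 0` since `y ≠ 0`), `A = W + Lam k s`, `WK = pull K A`.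
`deg_pull_single` gives `g_K = 2 g_F - 1 + deg (Lam k s)`, so `deg A = g_K - 1` and
`deg WK = 2 g_K - 2`; `ell WK = ell A + ell (A - Lam k s) = (deg A + 1 - g_F) + g_F = g_K` by
`ell_pull` and `IsCurve.riemann` if `g_K - 1` is at least the constant `c₀` of `F`.
`DC.mem`: `mem_pull_iff` for `m • A` (`pull_nsmul`), `m • A - Lam k s = (m - 1) • A + W`.
`DC.s_mem`: `mem_two_Lam`.  The Clifford index: for the divisor `E` of `exists_gon` on `F` take
`pull K E`: `ell (pull K E) ≥ ell E ≥ 2` (`ell_pull`), `deg (pull K E) = 2 gon` (`deg_pull`), and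
`ell (WK - pull K E) ≥ ell (A - E) ≥ 2` by `IsCurve.le_ell` if `g_K` is large; `cliff_le`. -/
theorem exists_DC (hF : IsCurve k F) {W : Dv k F} (hW : IsCan W) :
    ∃ N : ℕ, ∀ (K : Type) [Field K] [Algebra k K] [Algebra F K] [IsScalarTower k F K],
      Module.finrank F K = 2 → N ≤ genus k K →
        ∃ (y : K) (s : F) (A : Dv k F) (WK : Dv k K), DC y s A W WK ∧ IsCan WK ∧
          deg A = genus k K - 1 ∧ cliff WK + 2 ≤ 2 * gon k F := by
  obtain ⟨c₀, hc₀⟩ := hF.riemann
  obtain ⟨E, hE0, hE2, hEd⟩ := exists_gon hF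
  obtain ⟨hW1, hW2⟩ := hW
  refine ⟨max (c₀ + 1).toNat (gon k F + genus k F + 2), ?_⟩
  intro K _ _ _ _ hfin hN
  have : FiniteDimensional F K := Module.finite_of_finrank_pos (by omega)
  have : CharZero F := charZero_of_injective_algebraMap (algebraMap k F).injective
  have hK : IsCurve k K := hF.of_finite
  obtain ⟨y, s, σ, hy, hyF, hsp, hσ⟩ := exists_quad hfin
  have hs : s ≠ 0 := by
    intro h0
    rw [h0, map_zero] at hy
    exact hyF 0 (by rw [map_zero]; exact pow_eq_zero_iff (two_ne_zero) |>.1 hy)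
  have hN1 : (c₀ + 1).toNat ≤ genus k K := (le_max_left _ _).trans hN
  have hN2 : gon k F + genus k F + 2 ≤ genus k K := (le_max_right _ _).trans hN
  have hN3 : c₀ + 1 ≤ (genus k K : ℤ) := by
    have := Int.self_le_toNat (c₀ + 1)
    omega
  have := hF.infinite_pt
  obtain ⟨Q⟩ : Nonempty (Pt k F) := inferInstance
  have hg := (deg_pull_single hF hK hs hy hyF hsp hσ Q).2
  have hdeg := fun D : Dv k F => deg_pull hF hK hs hy hyF hsp hσ D
  have hell := fun D : Dv k F => ell_pull hF hK hs hy hyF hsp hσ D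
  have hA : deg (W + Lam k s) = genus k K - 1 := by
    rw [deg_add, hW1]
    omega
  have hAL : W + Lam k s - Lam k s = W := add_sub_cancel_right _ _
  have hellA : (ell (W + Lam k s) : ℤ) = deg (W + Lam k s) + 1 - genus k F :=
    hc₀ _ (by rw [hA]; omega)
  refine ⟨y, s, W + Lam k s, pull K (W + Lam k s), ?_, ⟨?_, ?_⟩, hA, ?_⟩
  · refine ⟨hy, hsp, hyF, ?_, ?_⟩
    · intro m f g
      rw [← pull_nsmul hK, mem_pull_iff hF hK hs hy hσ]
      have e : m • (W + Lam k s) - Lam k s = ((m : ℤ) - 1) • (W + Lam k s) + W := by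
        rw [sub_smul, one_smul, natCast_zsmul]
        abel
      rw [e]
    · rw [add_sub_cancel_left]
      exact mem_two_Lam hF hs
  · rw [hdeg, hA]
    ring
  · have h1 := hell (W + Lam k s)
    rw [hAL, hW2] at h1
    omega
  · have hpos : 0 ≤ pull K E := by
      intro P
      rw [pull_apply hK]
      exact mul_nonneg (Int.natCast_nonneg _) (hE0 _)
    have h1 : 2 ≤ ell (pull K E) := by
      rw [hell]
      omega
    have h2 : 2 ≤ ell (pull K (W + Lam k s) - pull K E) := by
      rw [← pull_sub hK, hell]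
      have h3 := hF.le_ell (W + Lam k s - E)
      rw [deg_sub, hA, hEd] at h3
      omega
    have h4 := cliff_le hK (by omega) hpos h1 h2
    rw [hdeg, hEd] at h4
    omega

end Pool.Agent.MPd118f9
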