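import Pool.Agent.Lib.MP_d118f9_ag.D.DPull

/-!
# MP_d118f9_ag, block D: the sections of a pull back
-/

set_option autoImplicit false

noncomputable section

open Classical

namespace Pool.Agent.MPd118f9

variable {k F K : Type} [Field k] [IsAlgClosed k] [CharZero k] [Field F] [Field K] [Algebra k F]
  [Algebra k K] [Algebra F K] [IsScalarTower k F K] [FiniteDimensional F K]

variable (k) in
/-- The divisor `Q ↦ -⌊ord_Q s / 2⌋`. -/
def Lam (s : F) : Dv k F := (dv k s).mapRange (fun n => -(n / 2)) (by norm_num)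

theorem Lam_apply (hF : IsCurve k F) {s : F} (hs : s ≠ 0) (Q : Pt k F) :
    Lam k s Q = -(Q.ord s / 2) := by
  unfold Lam
  rw [Finsupp.mapRange_apply, hF.dv_apply hs]

/-- The image of a point under an automorphism over `F`: the valuation ring is the preimage under
`σ`.

Proof. `P.1.comap σ` is a valuation ring isomorphic to `P.1`; a uniformizer is `σ.symm ϖ`
(`isDVRof_of_isUnif`), and `MP9a7843.ord_eq`. -/
theorem Pt.exists_conj (σ : K ≃ₐ[F] K) (P : Pt k K) :
    ∃ P' : Pt k K, ∀ f : K, P'.ord f = P.ord (σ f) := by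
  have hA := P.2
  obtain ⟨ϖ, hϖ⟩ := hA.exists_isUnif
  let A' : ValuationSubring K := P.1.comap (σ : K →+* K)
  have hmem : ∀ x : K, x ∈ A' ↔ σ x ∈ P.1 := fun x => Iff.rfl
  have hne : ∀ x : K, x ≠ 0 → σ x ≠ 0 := fun x hx => (map_ne_zero σ).2 hx
  have hlt : ∀ x : K, A'.valuation x < 1 ↔ P.1.valuation (σ x) < 1 := by
    intro x
    by_cases hx : x = 0
    · rw [hx]
      simp
    · rw [MP9a7843.val_lt_one_iff hx, MP9a7843.val_lt_one_iff (hne x hx), hmem, map_inv₀]
  have heq : ∀ x : K, x ≠ 0 → (A'.valuation x = 1 ↔ P.1.valuation (σ x) = 1) := by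
    intro x hx
    rw [MP9a7843.val_eq_one_iff hx, MP9a7843.val_eq_one_iff (hne x hx), hmem, hmem, map_inv₀]
  have hϖ0 : σ.symm ϖ ≠ 0 := (map_ne_zero σ.symm).2 hϖ.1
  have hunif : MP9a7843.IsUnif A' (σ.symm ϖ) := by
    refine ⟨hϖ0, fun x => ?_⟩
    rw [hlt, hϖ.2, hmem, map_div₀, AlgEquiv.apply_symm_apply]
  have hdvr : MP9a7843.IsDVRof k A' := by
    refine MP9a7843.isDVRof_of_isUnif (fun c => ?_) hunif fun a ha ha0 => ?_
    · rw [hmem, IsScalarTower.algebraMap_apply k F K, AlgEquiv.commutes,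
        ← IsScalarTower.algebraMap_apply k F K]
      exact hA.1 c
    · have h1 := (hA.ord_nonneg_iff (hne a ha0)).2 ((hmem a).1 ha)
      refine ⟨(MP9a7843.ord P.1 (σ a)).toNat, ?_⟩
      rw [heq _ (div_ne_zero ha0 (pow_ne_zero _ hϖ0)), map_div₀, map_pow,
        AlgEquiv.apply_symm_apply, ← zpow_natCast, Int.toNat_of_nonneg h1]
      exact hA.val_div_ord hϖ (hne a ha0)
  refine ⟨⟨A', hdvr⟩, fun f => ?_⟩
  by_cases hf : f = 0
  · rw [hf, map_zero]
    exact (MP9a7843.ord_zero (A := A')).trans (MP9a7843.ord_zero (A := P.1)).symm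
  · refine MP9a7843.ord_eq hunif ?_
    rw [heq _ (div_ne_zero hf (zpow_ne_zero _ hϖ0)), map_div₀, map_zpow₀,
      AlgEquiv.apply_symm_apply]
    exact hA.val_div_ord hϖ (hne f hf)

/-- Proof. `Pt.below_eq`, `Pt.ram_eq`: `P'.ord f = P.ord (σ f) = P.ord f` for `f : F`. -/
theorem Pt.below_of_conj {σ : K ≃ₐ[F] K} {P P' : Pt k K} (h : ∀ f : K, P'.ord f = P.ord (σ f)) :
    (P'.below : Pt k F) = P.below ∧ P'.ram F = P.ram F := by
  have h1 : ∀ f : F, P'.ord (algebraMap F K f) = P.ord (algebraMap F K f) := by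
    intro f
    rw [h, AlgEquiv.commutes]
  have h2 : (P'.below : Pt k F) = P.below := by
    refine Pt.below_eq fun f _ hf => ?_
    rw [h1, Pt.ord_map]
    exact mul_nonneg (Int.natCast_nonneg _) hf
  refine ⟨h2, Pt.ram_eq fun f => ?_⟩
  rw [h1, Pt.ord_map, h2]

/-- Proof. `Pt.exists_conj`, `Pt.below_of_conj`, `pull_apply`. -/
theorem conj_mem (hK : IsCurve k K) (σ : K ≃ₐ[F] K) {D : Dv k F} {x : K}
    (hx : x ∈ L (pull K D)) : σ x ∈ L (pull K D) := by
  rcases mem_L.1 hx with h0 | h0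
  · rw [h0, map_zero]
    exact zero_mem _
  · refine mem_L.2 (Or.inr fun P => ?_)
    obtain ⟨P', hP'⟩ := Pt.exists_conj σ P
    have h1 := Pt.below_of_conj hP'
    have h2 := h0 P'
    rw [pull_apply hK, h1.1, h1.2, ← pull_apply hK, hP'] at h2
    exact h2

/-- Proof. `Pt.ord_map`, `pull_apply`; for `→` use `exists_above` at every point. -/
theorem map_mem_pull (hK : IsCurve k K) {D : Dv k F} {f : F} :
    algebraMap F K f ∈ L (pull K D) ↔ f ∈ L D := by
  have hF : CharZero F := charZero_of_injective_algebraMap (algebraMap k F).injective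
  rw [mem_L, mem_L, map_eq_zero]
  refine or_congr Iff.rfl ⟨fun h Q => ?_, fun h P => ?_⟩
  · obtain ⟨P, hP⟩ := exists_above (K := K) Q
    have h1 := h P
    rw [pull_apply hK, Pt.ord_map, hP] at h1
    have h2 : (0 : ℤ) < P.ram F := by
      exact_mod_cast P.ram_pos F
    have h3 : (P.ram F : ℤ) * (-D Q) ≤ P.ram F * Q.ord f := by linarith
    exact le_of_mul_le_mul_left h3 h2
  · rw [pull_apply hK, Pt.ord_map]
    have h1 := mul_le_mul_of_nonneg_left (h P.below) (Int.natCast_nonneg (P.ram F))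
    linarith

/-- Proof. `2 P.ord y = P.ram * Q.ord s` (`Q = P.below`), so for `g ≠ 0`:
`-(P.ram * D Q) ≤ P.ord (g y)` iff `-(2 * D Q) ≤ 2 * Q.ord g + Q.ord s` iff
`-(D Q) - Q.ord s / 2 ≤ Q.ord g` (`omega`); `Lam_apply`, `exists_above`. -/
theorem map_mul_mem_pull (hF : IsCurve k F) (hK : IsCurve k K) {y : K} {s : F} (hs : s ≠ 0)
    (hy : y ^ 2 = algebraMap F K s) {D : Dv k F} {g : F} :
    algebraMap F K g * y ∈ L (pull K D) ↔ g ∈ L (D - Lam k s) := by
  have hc : CharZero F := charZero_of_injective_algebraMap (algebraMap k F).injective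
  have hy0 : y ≠ 0 := by
    rintro rfl
    rw [zero_pow (by norm_num)] at hy
    exact hs ((map_eq_zero _).1 hy.symm)
  have hord : ∀ P : Pt k K, 2 * P.ord y = P.ram F * (P.below : Pt k F).ord s := by
    intro P
    rw [← Pt.ord_map, ← hy, pow_two, P.ord_mul hy0 hy0]
    ring
  by_cases hg : g = 0
  · rw [hg, map_zero, zero_mul]
    exact ⟨fun _ => zero_mem _, fun _ => zero_mem _⟩
  have hg' : algebraMap F K g ≠ 0 := (map_ne_zero _).2 hg
  rw [mem_L_of_ne (mul_ne_zero hg' hy0), mem_L_of_ne hg]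
  have key : ∀ P : Pt k K, -pull K D P ≤ P.ord (algebraMap F K g * y) ↔
      -(D - Lam k s) P.below ≤ (P.below : Pt k F).ord g := by
    intro P
    rw [P.ord_mul hg' hy0, pull_apply hK, Pt.ord_map, Finsupp.sub_apply, Lam_apply hF hs]
    have h1 := hord P
    have h2 : (0 : ℤ) < P.ram F := by
      exact_mod_cast P.ram_pos F
    constructor
    · intro h3
      have h4 : (P.ram F : ℤ) * (-(2 * D P.below)) ≤
          P.ram F * (2 * (P.below : Pt k F).ord g + (P.below : Pt k F).ord s) := by linarith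
      have h5 := le_of_mul_le_mul_left h4 h2
      omega
    · intro h3
      have h5 : -(2 * D P.below) ≤ 2 * (P.below : Pt k F).ord g + (P.below : Pt k F).ord s := by
        omega
      have h6 := mul_le_mul_of_nonneg_left h5 h2.le
      linarith
  constructor
  · intro h Q
    obtain ⟨P, rfl⟩ := exists_above (K := K) Q
    exact (key P).1 (h P)
  · intro h P
    exact (key P).2 (h P.below)

/-- Proof. `←`: sum. `→`: for `x = f + g y` the elements `f = (x + σ x) / 2` and
`g y = (x - σ x) / 2` are in `L (pull K D)` (`conj_mem`). -/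
theorem mem_pull_iff (hF : IsCurve k F) (hK : IsCurve k K) {y : K} {s : F} (hs : s ≠ 0)
    (hy : y ^ 2 = algebraMap F K s) {σ : K ≃ₐ[F] K} (hσ : σ y = -y) {D : Dv k F} {f g : F} :
    algebraMap F K f + algebraMap F K g * y ∈ L (pull K D) ↔
      f ∈ L D ∧ g ∈ L (D - Lam k s) := by
  constructor
  · intro h
    have h1 := conj_mem hK σ h
    have h2 : σ (algebraMap F K f + algebraMap F K g * y) =
        algebraMap F K f - algebraMap F K g * y := by
      rw [map_add, map_mul, AlgEquiv.commutes, AlgEquiv.commutes, hσ]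
      ring
    rw [h2] at h1
    have h3 := (L (pull K D)).smul_mem (2 : k)⁻¹ (add_mem h h1)
    have h4 := (L (pull K D)).smul_mem (2 : k)⁻¹ (sub_mem h h1)
    have h5 : (2 : k)⁻¹ • (algebraMap F K f + algebraMap F K g * y +
        (algebraMap F K f - algebraMap F K g * y)) = algebraMap F K f := by
      rw [show algebraMap F K f + algebraMap F K g * y +
        (algebraMap F K f - algebraMap F K g * y) = (2 : k) • algebraMap F K f by
          rw [two_smul]; ring, smul_smul, inv_mul_cancel₀ two_ne_zero, one_smul]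
    have h6 : (2 : k)⁻¹ • (algebraMap F K f + algebraMap F K g * y -
        (algebraMap F K f - algebraMap F K g * y)) = algebraMap F K g * y := by
      rw [show algebraMap F K f + algebraMap F K g * y -
        (algebraMap F K f - algebraMap F K g * y) = (2 : k) • (algebraMap F K g * y) by
          rw [two_smul]; ring, smul_smul, inv_mul_cancel₀ two_ne_zero, one_smul]
    rw [h5] at h3
    rw [h6] at h4
    exact ⟨(map_mem_pull hK).1 h3, (map_mul_mem_pull hF hK hs hy).1 h4⟩
  · rintro ⟨h1, h2⟩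
    exact add_mem ((map_mem_pull hK).2 h1) ((map_mul_mem_pull hF hK hs hy).2 h2)

/-- Proof. `Q.ord s ≥ 2 (Q.ord s / 2)`. -/
theorem mem_two_Lam (hF : IsCurve k F) {s : F} (hs : s ≠ 0) : s ∈ L (2 • Lam k s) := by
  refine mem_L.2 (Or.inr fun Q => ?_)
  rw [Finsupp.smul_apply, Lam_apply hF hs, nsmul_eq_mul]
  push_cast
  omega

end Pool.Agent.MPd118f9
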