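import Pool.Agent.Lib.MP_d118f9_ag.Iface1

/-!
# MP_d118f9_ag, block D (double covers): the point below a point

Text: `/team-store/TEXT_d118f9_DC.md`, section 2.
-/

set_option autoImplicit false

noncomputable section

namespace Pool.Agent.MPd118f9

variable {k F K : Type} [Field k] [Field F] [Field K] [Algebra k F] [Algebra k K] [Algebra F K]
  [IsScalarTower k F K] [FiniteDimensional F K]

omit [Algebra k F] [IsScalarTower k F K] in
/-- `F` is not contained in the valuation ring of `P`. -/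
private theorem dpt_not_le (P : Pt k K) : ∃ f : F, algebraMap F K f ∉ P.1 := by
  by_contra hcon
  push Not at hcon
  have hfr : ∀ x : K, x ∈ P.1 := by
    intro x
    have h1 : (algebraMap F K).IsIntegralElem x := Algebra.IsIntegral.isIntegral x
    let φ : F →+* P.1 := (algebraMap F K).codRestrict P.1 hcon
    have h2 : ((algebraMap P.1 K).comp φ).IsIntegralElem x := h1
    have h3 : IsIntegral P.1 x := h2.of_comp
    obtain ⟨y, hy⟩ := IsIntegrallyClosed.isIntegral_iff.1 h3
    rw [← hy]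
    exact y.2
  exact P.2.ne_top (eq_top_iff.2 fun x _ => hfr x)

omit [FiniteDimensional F K] in
/-- The valuation ring below `P`, if the values of `P.ord` on `F` are the multiples of `e`. -/
private theorem dpt_below (P : Pt k K) {e : ℕ} (he : 0 < e) {ϖ : F} (hϖ0 : ϖ ≠ 0)
    (hϖ : P.ord (algebraMap F K ϖ) = e)
    (hdiv : ∀ f : F, f ≠ 0 → ∃ t : ℤ, P.ord (algebraMap F K f) = e * t) :
    ∃ Q : Pt k F, ∀ f : F, P.ord (algebraMap F K f) = e * Q.ord f := by
  have hinj : ∀ {f : F}, f ≠ 0 → algebraMap F K f ≠ 0 := fun hf =>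
    (map_ne_zero_iff _ (algebraMap F K).injective).2 hf
  let A : ValuationSubring F := P.1.comap (algebraMap F K)
  have he' : (0 : ℤ) < e := by exact_mod_cast he
  have hA : ∀ f : F, f ≠ 0 → (f ∈ A ↔ 0 ≤ P.ord (algebraMap F K f)) := fun f hf =>
    (P.2.ord_nonneg_iff (hinj hf)).symm
  have hinv : ∀ f : F, P.ord (algebraMap F K f⁻¹) = -P.ord (algebraMap F K f) := by
    intro f
    rw [map_inv₀]
    exact P.ord_inv _
  have hdivp : ∀ (f : F) (n : ℤ), f ≠ 0 → P.ord (algebraMap F K (f / ϖ ^ n)) =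
      P.ord (algebraMap F K f) - n * e := by
    intro f n hf
    rw [map_div₀, map_zpow₀]
    have h1 := P.2.ord_div (hinj hf) (zpow_ne_zero n (hinj hϖ0))
    have h2 := P.2.ord_zpow (algebraMap F K ϖ) n
    show MP9a7843.ord P.1 _ = MP9a7843.ord P.1 _ - n * e
    rw [h1, h2]
    show _ - n * P.ord _ = _
    rw [hϖ]
  have hunif : MP9a7843.IsUnif A ϖ := by
    refine ⟨hϖ0, fun x => ?_⟩
    by_cases hx : x = 0
    · rw [hx, map_zero, zero_div]
      exact ⟨fun _ => A.zero_mem, fun _ => zero_lt_one⟩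
    rw [MP9a7843.val_lt_one_iff hx, hA _ (inv_ne_zero hx), hA _ (div_ne_zero hx hϖ0), hinv]
    have h1 := hdivp x 1 hx
    rw [zpow_one, one_mul] at h1
    rw [h1]
    obtain ⟨t, ht⟩ := hdiv x hx
    rw [ht]
    constructor
    · intro h2
      have h3 : 0 < (e : ℤ) * t := by omega
      have h4 : 0 < t := pos_of_mul_pos_right h3 he'.le
      nlinarith
    · intro h2
      push Not
      nlinarith
  have hval : ∀ (f : F) (n : ℤ), f ≠ 0 → P.ord (algebraMap F K f) = e * n →
      A.valuation (f / ϖ ^ n) = 1 := by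
    intro f n hf hn
    have hne : f / ϖ ^ n ≠ 0 := div_ne_zero hf (zpow_ne_zero n hϖ0)
    rw [MP9a7843.val_eq_one_iff hne, hA _ hne, hA _ (inv_ne_zero hne), hinv, hdivp f n hf, hn]
    constructor <;> nlinarith
  have hdvr : MP9a7843.IsDVRof k A := by
    refine MP9a7843.isDVRof_of_isUnif (fun c => ?_) hunif fun a ha ha0 => ?_
    · show algebraMap F K (algebraMap k F c) ∈ P.1
      rw [← IsScalarTower.algebraMap_apply k F K]
      exact P.2.1 c
    · obtain ⟨t, ht⟩ := hdiv a ha0
      have h1 := (hA a ha0).1 ha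
      rw [ht] at h1
      have h2 : 0 ≤ t := nonneg_of_mul_nonneg_right h1 he'
      refine ⟨t.toNat, ?_⟩
      have h3 := hval a t ha0 ht
      rw [← Int.toNat_of_nonneg h2, zpow_natCast] at h3
      exact h3
  refine ⟨⟨A, hdvr⟩, fun f => ?_⟩
  by_cases hf : f = 0
  · rw [hf, map_zero]
    have h1 : P.ord (0 : K) = 0 := MP9a7843.ord_zero
    have h2 : Pt.ord (⟨A, hdvr⟩ : Pt k F) (0 : F) = 0 := MP9a7843.ord_zero
    rw [h1, h2, mul_zero]
  · obtain ⟨t, ht⟩ := hdiv f hf
    have h1 : Pt.ord (⟨A, hdvr⟩ : Pt k F) f = t := MP9a7843.ord_eq hunif (hval f t hf ht)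
    rw [h1, ht]

/-- The restriction of a point of `K` to `F`.

Proof. Let `A = P.1.comap (algebraMap F K)`, a valuation subring of `F` that contains `k`. It is not
`⊤`: otherwise `P.1` contains `F`, and `K` is integral over `F`, so `P.1 = ⊤` (`P.1` is integrally
closed), a contradiction to `IsDVRof.ne_top`. So some `f₀ : F` has `P.ord f₀ ≠ 0`; the values of
`P.ord` on `F*` form a nonzero subgroup of `ℤ`, let `e > 0` be its smallest positive element
(`Nat.find`) and `ϖ : F` with `P.ord ϖ = e`; all values are divisible by `e` (division with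
remainder, `f / ϖ ^ n`). Then `IsUnif A ϖ`, and `isDVRof_of_isUnif`; the order of `f` at `A` is
`P.ord f / e` (`MP9a7843.ord_eq`). -/
theorem Pt.exists_below (P : Pt k K) :
    ∃ (Q : Pt k F) (e : ℕ), 0 < e ∧ ∀ f : F, P.ord (algebraMap F K f) = e * Q.ord f := by
  classical
  have hinj : ∀ {f : F}, f ≠ 0 → algebraMap F K f ≠ 0 := fun hf =>
    (map_ne_zero_iff _ (algebraMap F K).injective).2 hf
  have hex : ∃ n : ℕ, 0 < n ∧ ∃ f : F, f ≠ 0 ∧ P.ord (algebraMap F K f) = n := by
    obtain ⟨f, hf⟩ := dpt_not_le (F := F) P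
    have hf0 : f ≠ 0 := by
      rintro rfl
      rw [map_zero] at hf
      exact hf P.1.zero_mem
    have h1 : ¬ 0 ≤ P.ord (algebraMap F K f) := fun h =>
      hf ((P.2.ord_nonneg_iff (hinj hf0)).1 h)
    refine ⟨(-P.ord (algebraMap F K f)).toNat, by omega, f⁻¹, inv_ne_zero hf0, ?_⟩
    rw [map_inv₀, P.ord_inv]
    omega
  obtain ⟨he, ϖ, hϖ0, hϖ⟩ := Nat.find_spec hex
  have hmin := fun n => Nat.find_min hex (m := n)
  generalize Nat.find hex = e at he hϖ hmin
  have he' : (0 : ℤ) < e := by exact_mod_cast he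
  have hdiv : ∀ f : F, f ≠ 0 → ∃ t : ℤ, P.ord (algebraMap F K f) = e * t := by
    intro f hf
    refine ⟨P.ord (algebraMap F K f) / e, ?_⟩
    have h1 := Int.emod_add_mul_ediv (P.ord (algebraMap F K f)) e
    have h2 := Int.emod_nonneg (P.ord (algebraMap F K f)) he'.ne'
    have h3 := Int.emod_lt_of_pos (P.ord (algebraMap F K f)) he'
    by_contra hne
    have h4 : 0 < P.ord (algebraMap F K f) % e := by
      rcases h2.eq_or_lt with h | h
      · rw [← h, zero_add] at h1
        exact absurd h1.symm hne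
      · exact h
    refine hmin (P.ord (algebraMap F K f) % e).toNat (by omega) ⟨by omega,
      f / ϖ ^ (P.ord (algebraMap F K f) / e), div_ne_zero hf (zpow_ne_zero _ hϖ0), ?_⟩
    rw [map_div₀, map_zpow₀]
    have h5 := P.2.ord_div (hinj hf) (zpow_ne_zero (P.ord (algebraMap F K f) / e) (hinj hϖ0))
    have h6 := P.2.ord_zpow (algebraMap F K ϖ) (P.ord (algebraMap F K f) / e)
    have h7 : P.ord (algebraMap F K f / algebraMap F K ϖ ^ (P.ord (algebraMap F K f) / e)) =
        P.ord (algebraMap F K f) - P.ord (algebraMap F K f) / e * P.ord (algebraMap F K ϖ) := by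
      show MP9a7843.ord P.1 _ = _
      rw [h5, h6]
      rfl
    rw [h7, hϖ, Int.toNat_of_nonneg h2]
    linarith
  obtain ⟨Q, hQ⟩ := dpt_below P he hϖ0 hϖ hdiv
  exact ⟨Q, e, he, hQ⟩

/-- The point of `F` below the point `P` of `K`. -/
def Pt.below (P : Pt k K) : Pt k F := (P.exists_below (F := F)).choose

variable (F)

/-- The ramification index. -/
def Pt.ram (P : Pt k K) : ℕ := (P.exists_below (F := F)).choose_spec.choose

theorem Pt.ram_pos (P : Pt k K) : 0 < P.ram F :=
  (P.exists_below (F := F)).choose_spec.choose_spec.1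

variable {F}

theorem Pt.ord_map (P : Pt k K) (f : F) :
    P.ord (algebraMap F K f) = (P.ram F : ℤ) * (P.below : Pt k F).ord f :=
  (P.exists_below (F := F)).choose_spec.choose_spec.2 f

/-- Proof. The valuation ring of `Q` is contained in that of `P.below` (`Pt.ord_map`,
`IsDVRof.ord_nonneg_iff`), so they are equal (`IsDVRof.eq_of_le`, `IsDVRof.ne_top`). -/
theorem Pt.below_eq {P : Pt k K} {Q : Pt k F}
    (h : ∀ f : F, f ≠ 0 → 0 ≤ Q.ord f → 0 ≤ P.ord (algebraMap F K f)) : P.below = Q := by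
  have hpos : (0 : ℤ) < P.ram F := by exact_mod_cast P.ram_pos F
  have hle : Q.1 ≤ (P.below : Pt k F).1 := by
    intro f hf
    by_cases hf0 : f = 0
    · rw [hf0]
      exact ZeroMemClass.zero_mem _
    have h1 : 0 ≤ Q.ord f := (Q.2.ord_nonneg_iff hf0).2 hf
    have h2 := h f hf0 h1
    rw [P.ord_map] at h2
    exact ((P.below : Pt k F).2.ord_nonneg_iff hf0).1 (nonneg_of_mul_nonneg_right h2 hpos)
  exact (Subtype.ext (Q.2.eq_of_le hle (P.below : Pt k F).2.ne_top)).symm

/-- Proof. Take `f` with `Q.ord f = 1`. -/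
theorem Pt.ram_eq {P : Pt k K} {e : ℕ}
    (h : ∀ f : F, P.ord (algebraMap F K f) = e * (P.below : Pt k F).ord f) : P.ram F = e := by
  obtain ⟨f, hf⟩ := (P.below : Pt k F).exists_unif
  have h1 := h f
  rw [P.ord_map, hf, mul_one, mul_one] at h1
  exact_mod_cast h1

end Pool.Agent.MPd118f9
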