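import Pool.Agent.Lib.MP_d118f9_ag.D.DAbove

/-!
# MP_d118f9_ag, block D: the pull back of a divisor
-/

set_option autoImplicit false

noncomputable section

open Classical

namespace Pool.Agent.MPd118f9

variable {k F K : Type} [Field k] [IsAlgClosed k] [CharZero k] [Field F] [Field K] [Algebra k F]
  [Algebra k K] [Algebra F K] [IsScalarTower k F K] [FiniteDimensional F K]

variable (K) in
/-- The pull back of a divisor: `P ↦ e_P D_Q`, `Q` the point below `P` (the junk value `0` if
infinitely many values are not zero, which does not happen). -/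
def pull (D : Dv k F) : Dv k K :=
  if h : {P : Pt k K | (P.ram F : ℤ) * D P.below ≠ 0}.Finite then
    Finsupp.onFinset h.toFinset (fun P => (P.ram F : ℤ) * D P.below) (fun P hP => by simpa using hP)
  else 0

/-- Proof. For `f : F` with `Q.ord f ≠ 0` (`Pt.exists_unif`) all these `P` satisfy
`P.ord f ≠ 0` (`Pt.ord_map`, `Pt.ram_pos`); `IsCurve.finite_ord`. -/
theorem finite_fiber (hK : IsCurve k K) (Q : Pt k F) : {P : Pt k K | P.below = Q}.Finite := by
  obtain ⟨f, hf⟩ := Q.exists_unif
  have hf0 : f ≠ 0 := by
    rintro rfl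
    have h1 : Q.ord (0 : F) = 0 := MP9a7843.ord_zero
    omega
  refine (hK.finite_ord ((map_ne_zero_iff _ (algebraMap F K).injective).2 hf0)).subset ?_
  intro P hP
  change P.below = Q at hP
  change P.ord (algebraMap F K f) ≠ 0
  rw [P.ord_map, hP, hf, mul_one]
  exact_mod_cast (P.ram_pos F).ne'

/-- Proof. The set is contained in the union of the fibers over the support of `D`. -/
theorem pull_apply (hK : IsCurve k K) (D : Dv k F) (P : Pt k K) :
    pull K D P = (P.ram F : ℤ) * D P.below := by
  have hfin : {P : Pt k K | (P.ram F : ℤ) * D P.below ≠ 0}.Finite := by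
    refine (Set.Finite.biUnion D.support.finite_toSet fun Q _ => finite_fiber hK Q).subset ?_
    intro P hP
    change (P.ram F : ℤ) * D P.below ≠ 0 at hP
    refine Set.mem_biUnion (x := P.below) ?_ rfl
    rw [Finset.mem_coe, Finsupp.mem_support_iff]
    exact right_ne_zero_of_mul hP
  unfold pull
  rw [dif_pos hfin]
  rfl

theorem pull_add (hK : IsCurve k K) (D D' : Dv k F) : pull K (D + D') = pull K D + pull K D' := by
  ext P
  rw [Finsupp.add_apply, pull_apply hK, pull_apply hK, pull_apply hK, Finsupp.add_apply, mul_add]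

theorem pull_sub (hK : IsCurve k K) (D D' : Dv k F) : pull K (D - D') = pull K D - pull K D' := by
  ext P
  rw [Finsupp.sub_apply, pull_apply hK, pull_apply hK, pull_apply hK, Finsupp.sub_apply, mul_sub]

theorem pull_nsmul (hK : IsCurve k K) (n : ℕ) (D : Dv k F) : pull K (n • D) = n • pull K D := by
  ext P
  rw [Finsupp.smul_apply, pull_apply hK, pull_apply hK, Finsupp.smul_apply, nsmul_eq_mul,
    nsmul_eq_mul]
  ring

theorem pull_mono (hK : IsCurve k K) {D D' : Dv k F} (h : D ≤ D') : pull K D ≤ pull K D' := by
  intro P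
  rw [pull_apply hK, pull_apply hK]
  exact mul_le_mul_of_nonneg_left (h _) (Int.natCast_nonneg _)

/-- Proof. It is effective and not zero (`exists_above`, `Pt.ram_pos`). -/
theorem deg_pull_single_pos (hK : IsCurve k K) (Q : Pt k F) :
    0 < deg (pull K (Finsupp.single Q 1)) := by
  have : CharZero F := charZero_of_injective_algebraMap (algebraMap k F).injective
  obtain ⟨P₀, hP₀⟩ := exists_above (K := K) Q
  have h1 : (Finsupp.single P₀ 1 : Dv k K) ≤ pull K (Finsupp.single Q 1) := by
    intro P
    rw [pull_apply hK]
    by_cases hP : P = P₀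
    · rw [hP, hP₀, Finsupp.single_eq_same, Finsupp.single_eq_same, mul_one]
      exact_mod_cast P₀.ram_pos F
    · rw [Finsupp.single_eq_of_ne hP]
      refine mul_nonneg (Int.natCast_nonneg _) ?_
      rw [Finsupp.single_apply]
      split_ifs <;> norm_num
  have h2 := deg_mono h1
  rw [deg_single] at h2
  linarith

end Pool.Agent.MPd118f9
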